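import Pool.Agent.H82.HD.TC

/-!
# The Balog-Szemeredi-Gowers lemma for dense bipartite graphs
-/

set_option autoImplicit false

open Finset

namespace Pool.Agent.H14.HDS

open Pool.Agent.H82.HD

/-- BSG -/
theorem pf_BSG : T_BSG := by
  classical
  intro α β A B G N K hK hN hG hA hB hE
  have hK0 : 0 < K := by linarith
  set g : α → β → ℝ := fun a b => if (a, b) ∈ G then 1 else 0 with hg
  have hg0 : ∀ a b, 0 ≤ g a b := by
    intro a b
    simp only [hg]
    split_ifs <;> norm_num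
  have hg1 : ∀ a b, g a b ≤ 1 := by
    intro a b
    simp only [hg]
    split_ifs <;> norm_num
  have hcard : ∀ X ⊆ A, ∀ Y ⊆ B, ((G.filter fun e => e.1 ∈ X ∧ e.2 ∈ Y).card : ℝ) =
      ∑ a ∈ X, ∑ b ∈ Y, g a b := by
    intro X hX Y hY
    rw [← Finset.sum_product' X Y g]
    have h1 : G.filter (fun e => e.1 ∈ X ∧ e.2 ∈ Y) = (X ×ˢ Y).filter (fun e => e ∈ G) := by
      ext e
      rw [Finset.mem_filter, Finset.mem_filter, Finset.mem_product]
      exact and_comm
    rw [h1, ← Finset.sum_boole]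
  have hGc : (G.card : ℝ) = ∑ a ∈ A, ∑ b ∈ B, g a b := by
    rw [← hcard A subset_rfl B subset_rfl]
    congr 2
    symm
    rw [Finset.filter_eq_self]
    intro e he
    have := hG he
    rwa [Finset.mem_product] at this
  have hsum_le : ∀ (X : Finset α) (b : β), ∑ a ∈ X, g a b ≤ X.card := by
    intro X b
    calc ∑ a ∈ X, g a b ≤ ∑ a ∈ X, (1 : ℝ) := Finset.sum_le_sum fun a _ => hg1 a b
      _ = X.card := by simp
  have hdeg_le : ∀ a, ∑ b ∈ B, g a b ≤ N := by
    intro a
    calc ∑ b ∈ B, g a b ≤ ∑ b ∈ B, (1 : ℝ) := Finset.sum_le_sum fun b _ => hg1 a b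
      _ = B.card := by simp
      _ ≤ N := hB
  -- the vertices of large degree
  set A1 : Finset α := A.filter (fun a => N / (2 * K) ≤ ∑ b ∈ B, g a b) with hA1
  have hA1A : A1 ⊆ A := Finset.filter_subset _ _
  have hA1N : (A1.card : ℝ) ≤ N :=
    le_trans (by exact_mod_cast Finset.card_le_card hA1A) hA
  have h1 : N ^ 2 / (2 * K) ≤ ∑ a ∈ A1, ∑ b ∈ B, g a b := by
    have h2 := Finset.sum_filter_add_sum_filter_not A
      (fun a => N / (2 * K) ≤ ∑ b ∈ B, g a b) (fun a => ∑ b ∈ B, g a b)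
    have h3 : ∑ a ∈ A.filter (fun a => ¬ N / (2 * K) ≤ ∑ b ∈ B, g a b), ∑ b ∈ B, g a b ≤
        N * (N / (2 * K)) := by
      calc _ ≤ ∑ a ∈ A.filter (fun a => ¬ N / (2 * K) ≤ ∑ b ∈ B, g a b), N / (2 * K) :=
            Finset.sum_le_sum fun a ha => (not_le.1 (Finset.mem_filter.1 ha).2).le
        _ = ((A.filter (fun a => ¬ N / (2 * K) ≤ ∑ b ∈ B, g a b)).card : ℝ) * (N / (2 * K)) := by
            rw [Finset.sum_const, nsmul_eq_mul]
        _ ≤ N * (N / (2 * K)) := by
            apply mul_le_mul_of_nonneg_right _ (by positivity)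
            refine le_trans ?_ hA
            exact_mod_cast Finset.card_le_card (Finset.filter_subset _ _)
    have h4 : N ^ 2 / K ≤ G.card := by
      rw [div_le_iff₀ hK0]
      linarith
    have h5 : N ^ 2 / K = N ^ 2 / (2 * K) + N * (N / (2 * K)) := by
      field_simp
      ring
    rw [hGc, ← h2] at h4
    linarith
  -- Cauchy-Schwarz
  have h2 : N ^ 3 / (4 * K ^ 2) ≤ ∑ b ∈ B, (∑ a ∈ A1, g a b) ^ 2 := by
    have h3 := sq_sum_le_card_mul_sum_sq (s := B) (f := fun b => ∑ a ∈ A1, g a b)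
    rw [Finset.sum_comm] at h3
    have h4 : (N ^ 2 / (2 * K)) ^ 2 ≤ (∑ a ∈ A1, ∑ b ∈ B, g a b) ^ 2 :=
      pow_le_pow_left₀ (by positivity) h1 2
    have h5 : (B.card : ℝ) * ∑ b ∈ B, (∑ a ∈ A1, g a b) ^ 2 ≤
        N * ∑ b ∈ B, (∑ a ∈ A1, g a b) ^ 2 :=
      mul_le_mul_of_nonneg_right hB (Finset.sum_nonneg fun b _ => sq_nonneg _)
    have h6 : (N ^ 2 / (2 * K)) ^ 2 ≤ N * ∑ b ∈ B, (∑ a ∈ A1, g a b) ^ 2 :=
      h4.trans (h3.trans h5)
    have h7 : (N ^ 2 / (2 * K)) ^ 2 = N * (N ^ 3 / (4 * K ^ 2)) := by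
      field_simp
      ring
    rw [h7] at h6
    exact le_of_mul_le_mul_left h6 hN
  -- bad pairs
  set τ : ℝ := N / (1024 * K ^ 4) with hτ
  have hτ0 : 0 < τ := by positivity
  set c : α → α → ℝ := fun a a' => ∑ b ∈ B, g a b * g a' b with hc
  have hc0 : ∀ a a', 0 ≤ c a a' := fun a a' =>
    Finset.sum_nonneg fun b _ => mul_nonneg (hg0 a b) (hg0 a' b)
  set bad : α → α → Prop := fun a a' => c a a' < τ with hbad
  set bb : β → ℝ := fun b => ∑ a ∈ A1, ∑ a' ∈ A1,
    if bad a a' then g a b * g a' b else 0 with hbb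
  have h3 : ∑ b ∈ B, bb b ≤ τ * N ^ 2 := by
    have e1 : ∑ b ∈ B, bb b = ∑ a ∈ A1, ∑ a' ∈ A1, if bad a a' then c a a' else 0 := by
      simp only [hbb]
      rw [Finset.sum_comm]
      apply Finset.sum_congr rfl
      intro a _
      rw [Finset.sum_comm]
      apply Finset.sum_congr rfl
      intro a' _
      split_ifs
      · rfl
      · simp
    rw [e1]
    calc ∑ a ∈ A1, ∑ a' ∈ A1, (if bad a a' then c a a' else 0)
        ≤ ∑ a ∈ A1, ∑ a' ∈ A1, τ := by
          apply Finset.sum_le_sum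
          intro a _
          apply Finset.sum_le_sum
          intro a' _
          split_ifs with h
          · exact h.le
          · exact hτ0.le
      _ = (A1.card : ℝ) * ((A1.card : ℝ) * τ) := by
          rw [Finset.sum_const, Finset.sum_const, nsmul_eq_mul, nsmul_eq_mul]
      _ ≤ N * (N * τ) := by
          apply mul_le_mul hA1N _ (by positivity) hN.le
          exact mul_le_mul_of_nonneg_right hA1N hτ0.le
      _ = τ * N ^ 2 := by ring
  have h4 : N ^ 3 / (8 * K ^ 2) ≤ ∑ b ∈ B, ((∑ a ∈ A1, g a b) ^ 2 - 128 * K ^ 2 * bb b) := by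
    rw [Finset.sum_sub_distrib, ← Finset.mul_sum]
    have h5 : 128 * K ^ 2 * ∑ b ∈ B, bb b ≤ 128 * K ^ 2 * (τ * N ^ 2) :=
      mul_le_mul_of_nonneg_left h3 (by positivity)
    have h6 : N ^ 3 / (4 * K ^ 2) - 128 * K ^ 2 * (τ * N ^ 2) = N ^ 3 / (8 * K ^ 2) := by
      rw [hτ]
      field_simp
      ring
    linarith
  obtain ⟨b0, hb0, h5⟩ : ∃ b ∈ B, N ^ 2 / (8 * K ^ 2) ≤
      (∑ a ∈ A1, g a b) ^ 2 - 128 * K ^ 2 * bb b := by
    by_contra hcon
    push Not at hcon
    have h6 : ∑ b ∈ B, ((∑ a ∈ A1, g a b) ^ 2 - 128 * K ^ 2 * bb b) ≤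
        B.card * (N ^ 2 / (8 * K ^ 2)) := by
      rw [← nsmul_eq_mul, ← Finset.sum_const]
      exact Finset.sum_le_sum fun b hb => (hcon b hb).le
    by_cases hBe : B = ∅
    · rw [hBe, Finset.sum_empty] at h4
      have : 0 < N ^ 3 / (8 * K ^ 2) := by positivity
      linarith
    · have hBne : B.Nonempty := Finset.nonempty_iff_ne_empty.2 hBe
      have h7 : ∑ b ∈ B, ((∑ a ∈ A1, g a b) ^ 2 - 128 * K ^ 2 * bb b) <
          ∑ b ∈ B, N ^ 2 / (8 * K ^ 2) := Finset.sum_lt_sum_of_nonempty hBne hcon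
      rw [Finset.sum_const, nsmul_eq_mul] at h7
      have h8 : (B.card : ℝ) * (N ^ 2 / (8 * K ^ 2)) ≤ N * (N ^ 2 / (8 * K ^ 2)) :=
        mul_le_mul_of_nonneg_right hB (by positivity)
      have h9 : N * (N ^ 2 / (8 * K ^ 2)) = N ^ 3 / (8 * K ^ 2) := by ring
      linarith
  -- the neighbourhood
  set A0 : Finset α := A1.filter (fun a => (a, b0) ∈ G) with hA0
  have hA0A1 : A0 ⊆ A1 := Finset.filter_subset _ _
  have hs : ∑ a ∈ A1, g a b0 = A0.card := by
    rw [hA0, ← Finset.sum_boole]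
  have hbbA0 : bb b0 = ∑ a ∈ A0, ∑ a' ∈ A0, if bad a a' then (1 : ℝ) else 0 := by
    have hF : ∀ F : α → ℝ, ∑ a ∈ A0, F a = ∑ a ∈ A1, if (a, b0) ∈ G then F a else 0 :=
      fun F => Finset.sum_filter _ _
    simp only [hbb]
    rw [hF]
    apply Finset.sum_congr rfl
    intro a _
    by_cases ha : (a, b0) ∈ G
    · rw [if_pos ha, hF]
      apply Finset.sum_congr rfl
      intro a' _
      simp only [hg, ha, if_true, one_mul]
      by_cases ha' : (a', b0) ∈ G
      · simp only [ha', if_true]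
      · simp only [ha', if_false, ite_self]
    · rw [if_neg ha]
      apply Finset.sum_eq_zero
      intro a' _
      simp only [hg, ha, if_false, zero_mul, ite_self]
  rw [hs] at h5
  have hbb0 : 0 ≤ bb b0 := by
    rw [hbbA0]
    exact Finset.sum_nonneg fun a _ => Finset.sum_nonneg fun a' _ => by
      split_ifs <;> norm_num
  set n0 : ℝ := (A0.card : ℝ) with hn0
  have hn00 : 0 ≤ n0 := Nat.cast_nonneg _
  have h6 : N / (4 * K) ≤ n0 := by
    have h7 : (N / (4 * K)) ^ 2 ≤ n0 ^ 2 := by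
      have h8 : (N / (4 * K)) ^ 2 = N ^ 2 / (16 * K ^ 2) := by
        field_simp
        ring
      have h9 : N ^ 2 / (16 * K ^ 2) ≤ N ^ 2 / (8 * K ^ 2) := by
        apply div_le_div_of_nonneg_left (by positivity) (by positivity)
        nlinarith [sq_nonneg K]
      have h10 : 0 ≤ 128 * K ^ 2 * bb b0 := by positivity
      linarith
    exact le_of_sq_le_sq h7 hn00
  have hn0pos : 0 < n0 := lt_of_lt_of_le (by positivity) h6
  have h7 : 128 * K ^ 2 * bb b0 ≤ n0 ^ 2 := by
    have : 0 ≤ N ^ 2 / (8 * K ^ 2) := by positivity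
    linarith
  -- few bad vertices
  set A' : Finset α := A0.filter
    (fun a => (∑ a' ∈ A0, if bad a a' then (1 : ℝ) else 0) ≤ n0 / (16 * K)) with hA'
  have hA'A0 : A' ⊆ A0 := Finset.filter_subset _ _
  have h8 : ((A0 \ A').card : ℝ) ≤ n0 / (8 * K) := by
    have h9 : ((A0 \ A').card : ℝ) * (n0 / (16 * K)) ≤ bb b0 := by
      rw [hbbA0, ← nsmul_eq_mul, ← Finset.sum_const]
      calc ∑ a ∈ A0 \ A', n0 / (16 * K)
          ≤ ∑ a ∈ A0 \ A', ∑ a' ∈ A0, (if bad a a' then (1 : ℝ) else 0) := by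
            apply Finset.sum_le_sum
            intro a ha
            rw [Finset.mem_sdiff] at ha
            by_contra hlt
            exact ha.2 (Finset.mem_filter.2 ⟨ha.1, (not_le.1 hlt).le⟩)
        _ ≤ _ := by
            apply Finset.sum_le_sum_of_subset_of_nonneg Finset.sdiff_subset
            intro a _ _
            exact Finset.sum_nonneg fun a' _ => by split_ifs <;> norm_num
    have h10 : ((A0 \ A').card : ℝ) * (n0 / (16 * K)) ≤ n0 ^ 2 / (128 * K ^ 2) := by
      refine h9.trans ?_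
      rw [le_div_iff₀ (by positivity)]
      linarith
    have h11 : n0 ^ 2 / (128 * K ^ 2) = n0 / (8 * K) * (n0 / (16 * K)) := by
      field_simp
      ring
    rw [h11] at h10
    exact le_of_mul_le_mul_right h10 (by positivity)
  set B' : Finset β := B.filter (fun b => n0 / (8 * K) ≤ ∑ a ∈ A0, g a b) with hB'
  have hB'B : B' ⊆ B := Finset.filter_subset _ _
  refine ⟨A', (hA'A0.trans hA0A1).trans hA1A, B', hB'B, ?_, ?_⟩
  · -- edges
    rw [hcard A' ((hA'A0.trans hA0A1).trans hA1A) B' hB'B]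
    have e1 : n0 * (N / (2 * K)) ≤ ∑ a ∈ A0, ∑ b ∈ B, g a b := by
      rw [hn0, ← nsmul_eq_mul, ← Finset.sum_const]
      apply Finset.sum_le_sum
      intro a ha
      exact (Finset.mem_filter.1 (hA0A1 ha)).2
    have e2 : ∑ a ∈ A0, ∑ b ∈ B, g a b =
        ∑ a ∈ A0 \ A', ∑ b ∈ B, g a b + ∑ a ∈ A', ∑ b ∈ B, g a b :=
      (Finset.sum_sdiff hA'A0).symm
    have e3 : ∑ a ∈ A0 \ A', ∑ b ∈ B, g a b ≤ n0 / (8 * K) * N := by
      calc ∑ a ∈ A0 \ A', ∑ b ∈ B, g a b ≤ ∑ a ∈ A0 \ A', N :=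
            Finset.sum_le_sum fun a _ => hdeg_le a
        _ = ((A0 \ A').card : ℝ) * N := by rw [Finset.sum_const, nsmul_eq_mul]
        _ ≤ n0 / (8 * K) * N := mul_le_mul_of_nonneg_right h8 hN.le
    have e4 : ∑ a ∈ A', ∑ b ∈ B, g a b =
        ∑ a ∈ A', ∑ b ∈ B \ B', g a b + ∑ a ∈ A', ∑ b ∈ B', g a b := by
      rw [← Finset.sum_add_distrib]
      apply Finset.sum_congr rfl
      intro a _
      exact (Finset.sum_sdiff hB'B).symm
    have e5 : ∑ a ∈ A', ∑ b ∈ B \ B', g a b ≤ N * (n0 / (8 * K)) := by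
      calc ∑ a ∈ A', ∑ b ∈ B \ B', g a b ≤ ∑ a ∈ A0, ∑ b ∈ B \ B', g a b := by
            apply Finset.sum_le_sum_of_subset_of_nonneg hA'A0
            intro a _ _
            exact Finset.sum_nonneg fun b _ => hg0 a b
        _ = ∑ b ∈ B \ B', ∑ a ∈ A0, g a b := Finset.sum_comm
        _ ≤ ∑ b ∈ B \ B', n0 / (8 * K) := by
            apply Finset.sum_le_sum
            intro b hb
            rw [Finset.mem_sdiff] at hb
            by_contra hlt
            exact hb.2 (Finset.mem_filter.2 ⟨hb.1, (not_le.1 hlt).le⟩)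
        _ = ((B \ B').card : ℝ) * (n0 / (8 * K)) := by rw [Finset.sum_const, nsmul_eq_mul]
        _ ≤ N * (n0 / (8 * K)) := by
            apply mul_le_mul_of_nonneg_right _ (by positivity)
            refine le_trans ?_ hB
            exact_mod_cast Finset.card_le_card Finset.sdiff_subset
    have e6 : n0 * N / (4 * K) ≤ ∑ a ∈ A', ∑ b ∈ B', g a b := by
      have e7 : n0 * N / (4 * K) = n0 * (N / (2 * K)) - n0 / (8 * K) * N -
          N * (n0 / (8 * K)) := by
        field_simp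
        ring
      linarith
    have e8 : N ^ 2 ≤ 16 * K ^ 2 * (n0 * N / (4 * K)) := by
      have e9 : 16 * K ^ 2 * (n0 * N / (4 * K)) = N * (4 * K * n0) := by
        field_simp
        ring
      have e10 : N ≤ 4 * K * n0 := by
        rw [div_le_iff₀ (by positivity)] at h6
        linarith
      rw [e9, sq]
      exact mul_le_mul_of_nonneg_left e10 hN.le
    exact e8.trans (mul_le_mul_of_nonneg_left e6 (by positivity))
  · -- paths
    intro a ha b hb
    rw [hA', Finset.mem_filter] at ha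
    rw [hB', Finset.mem_filter] at hb
    have hac : a ∈ A0 := ha.1
    have p1 : (((B ×ˢ A).filter
        fun p => (a, p.1) ∈ G ∧ (p.2, p.1) ∈ G ∧ (p.2, b) ∈ G).card : ℝ) =
        ∑ a' ∈ A, g a' b * c a a' := by
      rw [← Finset.sum_boole, Finset.sum_product_right]
      apply Finset.sum_congr rfl
      intro a' _
      simp only [hc]
      rw [Finset.mul_sum]
      apply Finset.sum_congr rfl
      intro b' _
      simp only [hg]
      by_cases q1 : (a, b') ∈ G
      · by_cases q2 : (a', b') ∈ G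
        · by_cases q3 : (a', b) ∈ G
          · simp [q1, q2, q3]
          · simp [q1, q2, q3]
        · simp [q1, q2]
      · simp [q1]
    rw [p1]
    have p2 : n0 / (16 * K) ≤ ∑ a' ∈ A0, (if bad a a' then 0 else g a' b) := by
      have p3 : ∑ a' ∈ A0, g a' b ≤ ∑ a' ∈ A0, (if bad a a' then 0 else g a' b) +
          ∑ a' ∈ A0, (if bad a a' then (1 : ℝ) else 0) := by
        rw [← Finset.sum_add_distrib]
        apply Finset.sum_le_sum
        intro a' _
        split_ifs
        · rw [zero_add]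
          exact hg1 a' b
        · rw [add_zero]
      have p4 : n0 / (8 * K) = n0 / (16 * K) + n0 / (16 * K) := by
        field_simp
        ring
      linarith [ha.2, hb.2]
    have p5 : n0 / (16 * K) * τ ≤ ∑ a' ∈ A, g a' b * c a a' := by
      calc n0 / (16 * K) * τ ≤ (∑ a' ∈ A0, (if bad a a' then 0 else g a' b)) * τ :=
            mul_le_mul_of_nonneg_right p2 hτ0.le
        _ = ∑ a' ∈ A0, (if bad a a' then 0 else g a' b) * τ := Finset.sum_mul _ _ _
        _ ≤ ∑ a' ∈ A0, g a' b * c a a' := by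
            apply Finset.sum_le_sum
            intro a' _
            split_ifs with hb'
            · rw [zero_mul]
              exact mul_nonneg (hg0 a' b) (hc0 a a')
            · exact mul_le_mul_of_nonneg_left (not_lt.1 hb') (hg0 a' b)
        _ ≤ ∑ a' ∈ A, g a' b * c a a' := by
            apply Finset.sum_le_sum_of_subset_of_nonneg (hA0A1.trans hA1A)
            intro a' _ _
            exact mul_nonneg (hg0 a' b) (hc0 a a')
    have p6 : N ^ 2 ≤ 2 ^ 17 * K ^ 7 * (n0 / (16 * K) * τ) := by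
      have p7 : 2 ^ 17 * K ^ 7 * (n0 / (16 * K) * τ) = 8 * K ^ 2 * n0 * N := by
        rw [hτ]
        field_simp
        ring
      have e10 : N ≤ 4 * K * n0 := by
        rw [div_le_iff₀ (by positivity)] at h6
        linarith
      have e11 : 4 * K * n0 ≤ 8 * K ^ 2 * n0 := by
        have : K * n0 ≤ K ^ 2 * n0 := mul_le_mul_of_nonneg_right (by nlinarith) hn00
        nlinarith
      rw [p7, sq]
      exact mul_le_mul_of_nonneg_right (e10.trans e11) hN.le
    exact p6.trans (mul_le_mul_of_nonneg_left p5 (by positivity))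

end Pool.Agent.H14.HDS
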