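import Pool.Agent.H82.HD.TC

/-!
# Six slices in good position
-/

set_option autoImplicit false

open Finset

namespace Pool.Agent.H14.HDS

open Pool.Agent.H82.HD

/-- patterns `(h, x, y, y')` -/
abbrev Pt : Type := ℤ × ℤ × ℤ × ℤ

/-- the universe -/
def Om (H I : Finset ℤ) : Finset Pt := H ×ˢ (I ×ˢ (I ×ˢ I))

theorem mem_Om {H I : Finset ℤ} {P : Pt} :
    P ∈ Om H I ↔ P.1 ∈ H ∧ P.2.1 ∈ I ∧ P.2.2.1 ∈ I ∧ P.2.2.2 ∈ I := by
  unfold Om
  rw [Finset.mem_product, Finset.mem_product, Finset.mem_product]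

section

/-- the number of patterns with the property `p` -/
noncomputable def nb (Ω : Finset Pt) (p : Pt → Prop) : ℝ :=
  ((@Finset.filter Pt p (Classical.decPred p) Ω).card : ℝ)

theorem nb_eq (Ω : Finset Pt) (p : Pt → Prop) [inst : DecidablePred p] :
    nb Ω p = ((Ω.filter p).card : ℝ) := by
  unfold nb
  have h : Classical.decPred p = inst := Subsingleton.elim _ _
  rw [h]

theorem or_le (Ω : Finset Pt) (p q : Pt → Prop) {a b : ℝ}
    (hp : nb Ω p ≤ a) (hq : nb Ω q ≤ b) :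
    nb Ω (fun P => p P ∨ q P) ≤ a + b := by
  classical
  rw [nb_eq] at hp hq ⊢
  rw [Finset.filter_or]
  have h := Finset.card_union_le (Ω.filter p) (Ω.filter q)
  have h' : ((Ω.filter p ∪ Ω.filter q).card : ℝ) ≤ (Ω.filter p).card + (Ω.filter q).card := by
    exact_mod_cast h
  linarith

theorem cnt (Ω : Finset Pt) (p : Pt → Prop) (t : Finset Pt) (F : Pt → Pt)
    (hF : ∀ P ∈ Ω, p P → F P ∈ t) (hinj : ∀ P Q, F P = F Q → P = Q) :
    nb Ω p ≤ t.card := by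
  classical
  rw [nb_eq]
  have h := Finset.card_le_card_of_injOn (s := Ω.filter p) (t := t) F
    (fun P hP => hF P (Finset.mem_filter.1 hP).1 (Finset.mem_filter.1 hP).2)
    (fun P _ Q _ h => hinj P Q h)
  exact_mod_cast h

theorem card_prod4 (A B C D : Finset ℤ) :
    ((A ×ˢ (B ×ˢ (C ×ˢ D)) : Finset Pt).card : ℝ) =
      (A.card : ℝ) * ((B.card : ℝ) * ((C.card : ℝ) * (D.card : ℝ))) := by
  rw [Finset.card_product, Finset.card_product, Finset.card_product]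
  push_cast
  ring

variable {H I : Finset ℤ} {J : ℝ}

theorem bd (W : Finset ℤ) (hJ : 0 ≤ J) (hH : (H.card : ℝ) ≤ 3 * J) (hI : (I.card : ℝ) ≤ 2 * J) :
    ((W ×ˢ (H ×ˢ (I ×ˢ I)) : Finset Pt).card : ℝ) ≤ 12 * J ^ 3 * W.card := by
  rw [card_prod4]
  have h1 : (I.card : ℝ) * I.card ≤ (2 * J) * (2 * J) :=
    mul_le_mul hI hI (Nat.cast_nonneg _) (by positivity)
  have h2 : (H.card : ℝ) * ((I.card : ℝ) * I.card) ≤ (3 * J) * ((2 * J) * (2 * J)) :=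
    mul_le_mul hH h1 (by positivity) (by positivity)
  calc (W.card : ℝ) * ((H.card : ℝ) * ((I.card : ℝ) * I.card)) ≤
        W.card * ((3 * J) * ((2 * J) * (2 * J))) :=
        mul_le_mul_of_nonneg_left h2 (Nat.cast_nonneg _)
    _ = 12 * J ^ 3 * W.card := by ring

theorem bdh (W : Finset ℤ) (hJ : 0 ≤ J) (hI : (I.card : ℝ) ≤ 2 * J) :
    ((W ×ˢ (I ×ˢ (I ×ˢ I)) : Finset Pt).card : ℝ) ≤ 8 * J ^ 3 * W.card := by
  rw [card_prod4]
  have h1 : (I.card : ℝ) * I.card ≤ (2 * J) * (2 * J) :=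
    mul_le_mul hI hI (Nat.cast_nonneg _) (by positivity)
  have h2 : (I.card : ℝ) * ((I.card : ℝ) * I.card) ≤ (2 * J) * ((2 * J) * (2 * J)) :=
    mul_le_mul hI h1 (by positivity) (by positivity)
  calc (W.card : ℝ) * ((I.card : ℝ) * ((I.card : ℝ) * I.card)) ≤
        W.card * ((2 * J) * ((2 * J) * (2 * J))) :=
        mul_le_mul_of_nonneg_left h2 (Nat.cast_nonneg _)
    _ = 8 * J ^ 3 * W.card := by ring

/-- the form determines `x` -/
theorem cntX (W : Finset ℤ) (hJ : 0 ≤ J) (hH : (H.card : ℝ) ≤ 3 * J) (hI : (I.card : ℝ) ≤ 2 * J)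
    (l : ℤ → ℤ → ℤ → ℤ → ℤ) (hl : ∀ h y y' x x', l h x y y' = l h x' y y' → x = x') :
    nb (Om H I) (fun P => l P.1 P.2.1 P.2.2.1 P.2.2.2 ∈ W) ≤
      12 * J ^ 3 * W.card := by
  refine (cnt (Om H I) _ (W ×ˢ (H ×ˢ (I ×ˢ I)))
    (fun P => (l P.1 P.2.1 P.2.2.1 P.2.2.2, P.1, P.2.2.1, P.2.2.2)) ?_ ?_).trans
    (bd W hJ hH hI)
  · intro P hP hp
    rw [mem_Om] at hP
    rw [Finset.mem_product, Finset.mem_product, Finset.mem_product]
    exact ⟨hp, hP.1, hP.2.2.1, hP.2.2.2⟩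
  · rintro ⟨h, x, y, z⟩ ⟨h', x', y', z'⟩ he
    simp only [Prod.mk.injEq] at he
    obtain ⟨e1, rfl, rfl, rfl⟩ := he
    rw [hl _ _ _ _ _ e1]

/-- the form determines `y` -/
theorem cntY (W : Finset ℤ) (hJ : 0 ≤ J) (hH : (H.card : ℝ) ≤ 3 * J) (hI : (I.card : ℝ) ≤ 2 * J)
    (l : ℤ → ℤ → ℤ → ℤ → ℤ) (hl : ∀ h x y' y z, l h x y y' = l h x z y' → y = z) :
    nb (Om H I) (fun P => l P.1 P.2.1 P.2.2.1 P.2.2.2 ∈ W) ≤
      12 * J ^ 3 * W.card := by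
  refine (cnt (Om H I) _ (W ×ˢ (H ×ˢ (I ×ˢ I)))
    (fun P => (l P.1 P.2.1 P.2.2.1 P.2.2.2, P.1, P.2.1, P.2.2.2)) ?_ ?_).trans
    (bd W hJ hH hI)
  · intro P hP hp
    rw [mem_Om] at hP
    rw [Finset.mem_product, Finset.mem_product, Finset.mem_product]
    exact ⟨hp, hP.1, hP.2.1, hP.2.2.2⟩
  · rintro ⟨h, x, y, z⟩ ⟨h', x', y', z'⟩ he
    simp only [Prod.mk.injEq] at he
    obtain ⟨e1, rfl, rfl, rfl⟩ := he
    rw [hl _ _ _ _ _ e1]

/-- the form determines `y'` -/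
theorem cntZ (W : Finset ℤ) (hJ : 0 ≤ J) (hH : (H.card : ℝ) ≤ 3 * J) (hI : (I.card : ℝ) ≤ 2 * J)
    (l : ℤ → ℤ → ℤ → ℤ → ℤ) (hl : ∀ h x y z z', l h x y z = l h x y z' → z = z') :
    nb (Om H I) (fun P => l P.1 P.2.1 P.2.2.1 P.2.2.2 ∈ W) ≤
      12 * J ^ 3 * W.card := by
  refine (cnt (Om H I) _ (W ×ˢ (H ×ˢ (I ×ˢ I)))
    (fun P => (l P.1 P.2.1 P.2.2.1 P.2.2.2, P.1, P.2.1, P.2.2.1)) ?_ ?_).trans
    (bd W hJ hH hI)
  · intro P hP hp
    rw [mem_Om] at hP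
    rw [Finset.mem_product, Finset.mem_product, Finset.mem_product]
    exact ⟨hp, hP.1, hP.2.1, hP.2.2.1⟩
  · rintro ⟨h, x, y, z⟩ ⟨h', x', y', z'⟩ he
    simp only [Prod.mk.injEq] at he
    obtain ⟨e1, rfl, rfl, rfl⟩ := he
    rw [hl _ _ _ _ _ e1]

theorem cntH (W : Finset ℤ) (hJ : 0 ≤ J) (hI : (I.card : ℝ) ≤ 2 * J) :
    nb (Om H I) (fun P => P.1 ∈ W) ≤ 8 * J ^ 3 * W.card := by
  refine (cnt (Om H I) _ (W ×ˢ (I ×ˢ (I ×ˢ I))) (fun P => P) ?_ ?_).trans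
    (bdh W hJ hI)
  · intro P hP hp
    rw [mem_Om] at hP
    rw [Finset.mem_product, Finset.mem_product, Finset.mem_product]
    exact ⟨hp, hP.2.1, hP.2.2.1, hP.2.2.2⟩
  · intro P Q h
    exact h

/-- some value is in `U` -/
def B1 (U : Finset ℤ) (P : Pt) : Prop :=
  P.2.1 ∈ U ∨ P.2.1 + P.1 ∈ U ∨ P.2.2.1 ∈ U ∨ P.2.2.1 + P.1 ∈ U ∨ P.2.2.2 ∈ U ∨
    P.2.2.2 + P.1 ∈ U

/-- some difference is in `V` -/
def B2 (V : Finset ℤ) (P : Pt) : Prop :=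
  P.1 ∈ V ∨ P.2.2.1 - P.2.1 ∈ V ∨ P.2.2.2 - P.2.1 ∈ V ∨ P.2.2.1 - P.2.2.2 ∈ V ∨
    P.2.2.1 - P.2.1 - P.1 ∈ V ∨ P.2.2.1 - P.2.1 + P.1 ∈ V ∨ P.2.2.2 - P.2.1 - P.1 ∈ V ∨
    P.2.2.2 - P.2.1 + P.1 ∈ V

theorem B1_le (U : Finset ℤ) (hJ : 0 ≤ J) (hH : (H.card : ℝ) ≤ 3 * J)
    (hI : (I.card : ℝ) ≤ 2 * J) :
    nb (Om H I) (B1 U) ≤ 72 * J ^ 3 * U.card := by
  change nb (Om H I) (fun P => P.2.1 ∈ U ∨ P.2.1 + P.1 ∈ U ∨ P.2.2.1 ∈ U ∨
    P.2.2.1 + P.1 ∈ U ∨ P.2.2.2 ∈ U ∨ P.2.2.2 + P.1 ∈ U) ≤ _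
  refine (or_le _ _ _ (cntX U hJ hH hI (fun _ x _ _ => x) (fun _ _ _ _ _ h => h))
    (or_le _ _ _ (cntX U hJ hH hI (fun h x _ _ => x + h) (fun _ _ _ _ _ h => by linarith))
    (or_le _ _ _ (cntY U hJ hH hI (fun _ _ y _ => y) (fun _ _ _ _ _ h => h))
    (or_le _ _ _ (cntY U hJ hH hI (fun h _ y _ => y + h) (fun _ _ _ _ _ h => by linarith))
    (or_le _ _ _ (cntZ U hJ hH hI (fun _ _ _ z => z) (fun _ _ _ _ _ h => h))
      (cntZ U hJ hH hI (fun h _ _ z => z + h) (fun _ _ _ _ _ h => by linarith))))))).trans ?_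
  apply le_of_eq
  ring

theorem B2_le (V : Finset ℤ) (hJ : 0 ≤ J) (hH : (H.card : ℝ) ≤ 3 * J)
    (hI : (I.card : ℝ) ≤ 2 * J) :
    nb (Om H I) (B2 V) ≤ 92 * J ^ 3 * V.card := by
  change nb (Om H I) (fun P => P.1 ∈ V ∨ P.2.2.1 - P.2.1 ∈ V ∨ P.2.2.2 - P.2.1 ∈ V ∨
    P.2.2.1 - P.2.2.2 ∈ V ∨ P.2.2.1 - P.2.1 - P.1 ∈ V ∨ P.2.2.1 - P.2.1 + P.1 ∈ V ∨
    P.2.2.2 - P.2.1 - P.1 ∈ V ∨ P.2.2.2 - P.2.1 + P.1 ∈ V) ≤ _
  refine (or_le _ _ _ (cntH V hJ hI)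
    (or_le _ _ _ (cntY V hJ hH hI (fun _ x y _ => y - x) (fun _ _ _ _ _ h => by linarith))
    (or_le _ _ _ (cntZ V hJ hH hI (fun _ x _ z => z - x) (fun _ _ _ _ _ h => by linarith))
    (or_le _ _ _ (cntY V hJ hH hI (fun _ _ y z => y - z) (fun _ _ _ _ _ h => by linarith))
    (or_le _ _ _ (cntY V hJ hH hI (fun h x y _ => y - x - h) (fun _ _ _ _ _ h => by linarith))
    (or_le _ _ _ (cntY V hJ hH hI (fun h x y _ => y - x + h) (fun _ _ _ _ _ h => by linarith))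
    (or_le _ _ _ (cntZ V hJ hH hI (fun h x _ z => z - x - h) (fun _ _ _ _ _ h => by linarith))
      (cntZ V hJ hH hI (fun h x _ z => z - x + h)
        (fun _ _ _ _ _ h => by linarith))))))))).trans ?_
  apply le_of_eq
  ring

/-! ### the patterns of one slice -/

/-- the six points -/
def sx (P : Pt) : Finset ℤ :=
  {P.2.1, P.2.1 + P.1, P.2.2.1, P.2.2.1 + P.1, P.2.2.2, P.2.2.2 + P.1}

theorem sx_sub {P : Pt} {S : Finset ℤ} : sx P ⊆ S ↔ (P.2.1 ∈ S ∧ P.2.1 + P.1 ∈ S) ∧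
    (P.2.2.1 ∈ S ∧ P.2.2.1 + P.1 ∈ S) ∧ (P.2.2.2 ∈ S ∧ P.2.2.2 + P.1 ∈ S) := by
  unfold sx
  rw [Finset.insert_subset_iff, Finset.insert_subset_iff, Finset.insert_subset_iff,
    Finset.insert_subset_iff, Finset.insert_subset_iff, Finset.singleton_subset_iff]
  tauto

/-- indicator of `x, x + h ∈ S` -/
def ee (S : Finset ℤ) (h x : ℤ) : ℝ := if x ∈ S ∧ x + h ∈ S then 1 else 0

theorem ee_nonneg (S : Finset ℤ) (h x : ℤ) : 0 ≤ ee S h x := by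
  unfold ee
  split_ifs <;> norm_num

theorem nb_sx (S : Finset ℤ) : nb (Om H I) (fun P => sx P ⊆ S) =
    ∑ h ∈ H, (∑ x ∈ I, ee S h x) ^ 3 := by
  classical
  rw [nb_eq, ← Finset.sum_boole]
  unfold Om
  rw [Finset.sum_product]
  apply Finset.sum_congr rfl
  intro h _
  rw [Finset.sum_product]
  have e1 : (∑ x ∈ I, ee S h x) ^ 3 = ∑ x ∈ I, ∑ y ∈ I, ∑ z ∈ I,
      ee S h x * ee S h y * ee S h z := by
    rw [pow_succ, sq, Finset.sum_mul_sum, Finset.sum_mul]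
    apply Finset.sum_congr rfl
    intro x _
    rw [Finset.sum_mul]
    apply Finset.sum_congr rfl
    intro y _
    rw [Finset.mul_sum]
  rw [e1]
  apply Finset.sum_congr rfl
  intro x _
  rw [Finset.sum_product]
  apply Finset.sum_congr rfl
  intro y _
  apply Finset.sum_congr rfl
  intro z _
  simp only [sx_sub]
  unfold ee
  by_cases h1 : x ∈ S ∧ x + h ∈ S
  · by_cases h2 : y ∈ S ∧ y + h ∈ S
    · by_cases h3 : z ∈ S ∧ z + h ∈ S
      · rw [if_pos ⟨h1, h2, h3⟩, if_pos h1, if_pos h2, if_pos h3]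
        norm_num
      · rw [if_neg fun hh => h3 hh.2.2, if_neg h3, mul_zero]
    · rw [if_neg fun hh => h2 hh.2.1, if_neg h2, mul_zero, zero_mul]
  · rw [if_neg fun hh => h1 hh.1, if_neg h1, zero_mul, zero_mul]

theorem sq_le (S : Finset ℤ) (hS : S ⊆ I) (hH : ∀ u ∈ I, ∀ v ∈ I, u - v ∈ H) :
    (S.card : ℝ) ^ 2 ≤ ∑ h ∈ H, ∑ x ∈ I, ee S h x := by
  classical
  rw [Finset.sum_comm]
  have h1 : ∀ x ∈ S, (S.card : ℝ) ≤ ∑ h ∈ H, ee S h x := by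
    intro x hx
    have e1 : ∑ h ∈ H, ee S h x = ((H.filter fun h => x ∈ S ∧ x + h ∈ S).card : ℝ) := by
      rw [← Finset.sum_boole]
      rfl
    rw [e1]
    have h2 := Finset.card_le_card_of_injOn (s := S)
      (t := H.filter fun h => x ∈ S ∧ x + h ∈ S) (fun s => s - x)
      (fun s hs => by
        rw [Finset.mem_coe, Finset.mem_filter]
        refine ⟨hH s (hS hs) x (hS hx), hx, ?_⟩
        rw [add_sub_cancel]
        exact hs)
      (fun s _ s' _ h => by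
        have h' : s - x = s' - x := h
        linarith)
    exact_mod_cast h2
  calc (S.card : ℝ) ^ 2 = ∑ x ∈ S, (S.card : ℝ) := by
        rw [Finset.sum_const, nsmul_eq_mul, sq]
    _ ≤ ∑ x ∈ S, ∑ h ∈ H, ee S h x := Finset.sum_le_sum h1
    _ ≤ ∑ x ∈ I, ∑ h ∈ H, ee S h x := by
        apply Finset.sum_le_sum_of_subset_of_nonneg hS
        intro x _ _
        exact Finset.sum_nonneg fun h _ => ee_nonneg S h x

/-- the number of the patterns in a slice -/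
theorem nb_ge (S : Finset ℤ) (hS : S ⊆ I) (hH : ∀ u ∈ I, ∀ v ∈ I, u - v ∈ H) (hJ : 0 < J)
    (hHc : (H.card : ℝ) ≤ 3 * J) {κ : ℝ} (hκ : 0 ≤ κ) (hc : κ * J ≤ S.card) :
    κ ^ 6 * J ^ 4 / 9 ≤ nb (Om H I) (fun P => sx P ⊆ S) := by
  rw [nb_sx]
  have h1 := pow_sum_le_card_mul_sum_pow (s := H) (f := fun h => ∑ x ∈ I, ee S h x)
    (fun h _ => Finset.sum_nonneg fun x _ => ee_nonneg S h x) 2
  have h2 := sq_le S hS hH
  have h3 : (κ * J) ^ 2 ≤ ∑ h ∈ H, ∑ x ∈ I, ee S h x :=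
    le_trans (pow_le_pow_left₀ (by positivity) hc 2) h2
  have h4 : ((κ * J) ^ 2) ^ 3 ≤ (∑ h ∈ H, ∑ x ∈ I, ee S h x) ^ 3 :=
    pow_le_pow_left₀ (by positivity) h3 3
  have h5 : (0 : ℝ) ≤ ∑ h ∈ H, (∑ x ∈ I, ee S h x) ^ 3 :=
    Finset.sum_nonneg fun h _ => pow_nonneg (Finset.sum_nonneg fun x _ => ee_nonneg S h x) 3
  have h6 : (H.card : ℝ) ^ 2 * ∑ h ∈ H, (∑ x ∈ I, ee S h x) ^ 3 ≤
      (3 * J) ^ 2 * ∑ h ∈ H, (∑ x ∈ I, ee S h x) ^ 3 :=
    mul_le_mul_of_nonneg_right (pow_le_pow_left₀ (Nat.cast_nonneg _) hHc 2) h5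
  have h7 : ((κ * J) ^ 2) ^ 3 ≤ (3 * J) ^ 2 * ∑ h ∈ H, (∑ x ∈ I, ee S h x) ^ 3 :=
    h4.trans (h1.trans h6)
  have h8 : ((κ * J) ^ 2) ^ 3 = (3 * J) ^ 2 * (κ ^ 6 * J ^ 4 / 9) := by ring
  rw [h8] at h7
  exact le_of_mul_le_mul_left h7 (by positivity)

end

theorem card_Icc_neg (m : ℕ) : ((Icc (-(m : ℤ)) (m : ℤ)).card : ℝ) = 2 * m + 1 := by
  rw [Int.card_Icc]
  have h : ((m : ℤ) + 1 - -(m : ℤ)).toNat = 2 * m + 1 := by omega
  rw [h]
  push_cast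
  ring

theorem mem_Icc_floor {x : ℝ} {n : ℤ} (h : |(n : ℝ)| ≤ x) :
    n ∈ Icc (-((⌊x⌋₊ : ℕ) : ℤ)) ((⌊x⌋₊ : ℕ) : ℤ) := by
  have h1 : n.natAbs ≤ ⌊x⌋₊ := by
    apply Nat.le_floor
    rw [Nat.cast_natAbs, Int.cast_abs]
    exact h
  rw [Finset.mem_Icc]
  omega

theorem not_mem_Icc_floor {x : ℝ} {n : ℤ}
    (h : n ∉ Icc (-((⌊x⌋₊ : ℕ) : ℤ)) ((⌊x⌋₊ : ℕ) : ℤ)) : x ≤ |(n : ℝ)| := by
  by_contra hlt
  exact h (mem_Icc_floor (not_le.1 hlt).le)

/-- PAT: six slices in good position -/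
theorem pf_PAT : T_PAT := by
  classical
  intro τ TT S I w J κ Θ hTT hJ hκ hκ1 hbig hΘ hdiam hw hsum hS
  have hJ0 : 0 < J := by linarith
  have hκ6 : 0 < κ ^ 6 := by positivity
  set H : Finset ℤ := Icc (-((⌊J⌋₊ : ℕ) : ℤ)) ((⌊J⌋₊ : ℕ) : ℤ) with hHdef
  have hM : ((⌊J⌋₊ : ℕ) : ℝ) ≤ J := Nat.floor_le hJ0.le
  have hHc : (H.card : ℝ) ≤ 3 * J := by
    rw [hHdef, card_Icc_neg]
    linarith
  have hH : ∀ u ∈ I, ∀ v ∈ I, u - v ∈ H := by
    intro u hu v hv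
    apply mem_Icc_floor
    push_cast
    exact hdiam u hu v hv
  obtain ⟨T0, hT0⟩ := hTT
  have hIne : I.Nonempty := by
    obtain ⟨h1, h2⟩ := hS T0 hT0
    have h3 : 0 < (S T0).card := by
      have : (0 : ℝ) < ((S T0).card : ℝ) := lt_of_lt_of_le (by positivity) h2
      exact_mod_cast this
    exact (Finset.card_pos.1 h3).mono h1
  have hIc : (I.card : ℝ) ≤ 2 * J := by
    have h1 : I ⊆ Icc (I.min' hIne) (I.min' hIne + ((⌊J⌋₊ : ℕ) : ℤ)) := by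
      intro u hu
      rw [Finset.mem_Icc]
      have h2 := hH u hu _ (I.min'_mem hIne)
      rw [hHdef, Finset.mem_Icc] at h2
      have h3 := I.min'_le u hu
      omega
    have h2 := Finset.card_le_card h1
    rw [Int.card_Icc] at h2
    have h3 : (I.min' hIne + ((⌊J⌋₊ : ℕ) : ℤ) + 1 - I.min' hIne).toNat = ⌊J⌋₊ + 1 := by omega
    rw [h3] at h2
    have h4 : (I.card : ℝ) ≤ ((⌊J⌋₊ : ℕ) : ℝ) + 1 := by exact_mod_cast h2
    linarith
  -- small differences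
  set k' : ℝ := κ ^ 6 / 2 ^ 14 * J with hk'
  have hk'1 : 1 ≤ k' := by
    rw [hk', div_mul_eq_mul_div, le_div_iff₀ (by positivity)]
    linarith
  set V : Finset ℤ := Icc (-((⌊k'⌋₊ : ℕ) : ℤ)) ((⌊k'⌋₊ : ℕ) : ℤ) with hVdef
  have hVc : (V.card : ℝ) ≤ 3 * k' := by
    rw [hVdef, card_Icc_neg]
    have : ((⌊k'⌋₊ : ℕ) : ℝ) ≤ k' := Nat.floor_le (by linarith)
    linarith
  -- heavy points
  set U : Finset ℤ := I.filter (fun u => 2 ^ 12 / κ ^ 6 * Θ < w u) with hU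
  have hUc : (U.card : ℝ) ≤ κ ^ 6 * J / 2 ^ 12 := by
    have h1 : (U.card : ℝ) * (2 ^ 12 / κ ^ 6 * Θ) ≤ Θ * J := by
      calc (U.card : ℝ) * (2 ^ 12 / κ ^ 6 * Θ) = ∑ u ∈ U, 2 ^ 12 / κ ^ 6 * Θ := by
            rw [Finset.sum_const, nsmul_eq_mul]
        _ ≤ ∑ u ∈ U, w u := Finset.sum_le_sum fun u hu => (Finset.mem_filter.1 hu).2.le
        _ ≤ ∑ u ∈ I, w u := Finset.sum_le_sum_of_subset_of_nonneg (Finset.filter_subset _ _)
            fun u hu _ => hw u hu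
        _ ≤ Θ * J := hsum
    rcases hΘ.eq_or_lt with h0 | h0
    · have h2 : U = ∅ := by
        rw [hU, Finset.filter_eq_empty_iff]
        intro u hu hlt
        rw [← h0] at hlt hsum
        rw [mul_zero] at hlt
        rw [zero_mul] at hsum
        have h3 := Finset.single_le_sum (f := w) (fun v hv => hw v hv) hu
        linarith
      rw [h2, Finset.card_empty]
      push_cast
      positivity
    · have h2 : (U.card : ℝ) * (2 ^ 12 / κ ^ 6 * Θ) =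
          (U.card * (2 ^ 12 / κ ^ 6)) * Θ := by ring
      rw [h2, mul_comm Θ J] at h1
      have h3 : (U.card : ℝ) * (2 ^ 12 / κ ^ 6) ≤ J := le_of_mul_le_mul_right h1 h0
      rw [le_div_iff₀ (by positivity)]
      rw [mul_div_assoc', div_le_iff₀ hκ6] at h3
      linarith
  -- the bad patterns
  have hb1 := B1_le (H := H) (I := I) U hJ0.le hHc hIc
  have hb2 := B2_le (H := H) (I := I) V hJ0.le hHc hIc
  have hbad : nb (Om H I) (fun P => B1 U P ∨ B2 V P) ≤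
      κ ^ 6 * J ^ 4 * (72 / 4096 + 276 / 16384) := by
    refine (or_le _ _ _ hb1 hb2).trans ?_
    have h1 : 72 * J ^ 3 * (U.card : ℝ) ≤ 72 * J ^ 3 * (κ ^ 6 * J / 2 ^ 12) :=
      mul_le_mul_of_nonneg_left hUc (by positivity)
    have h2 : 92 * J ^ 3 * (V.card : ℝ) ≤ 92 * J ^ 3 * (3 * k') :=
      mul_le_mul_of_nonneg_left hVc (by positivity)
    have h3 : 72 * J ^ 3 * (κ ^ 6 * J / 2 ^ 12) + 92 * J ^ 3 * (3 * k') =
        κ ^ 6 * J ^ 4 * (72 / 4096 + 276 / 16384) := by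
      rw [hk']
      ring
    linarith
  -- the good patterns of a slice
  have hgood : ∀ T ∈ TT, κ ^ 6 * J ^ 4 / 16 ≤
      (((Om H I).filter fun P => sx P ⊆ S T ∧ ¬ (B1 U P ∨ B2 V P)).card : ℝ) := by
    intro T hT
    have h1 := nb_ge (H := H) (I := I) (S T) (hS T hT).1 hH hJ0 hHc hκ.le (hS T hT).2
    rw [nb_eq] at h1 hbad
    have h2 : (Om H I).filter (fun P => sx P ⊆ S T) ⊆
        (Om H I).filter (fun P => sx P ⊆ S T ∧ ¬ (B1 U P ∨ B2 V P)) ∪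
          (Om H I).filter (fun P => B1 U P ∨ B2 V P) := by
      intro P hP
      rw [Finset.mem_filter] at hP
      rw [Finset.mem_union, Finset.mem_filter, Finset.mem_filter]
      by_cases hb : B1 U P ∨ B2 V P
      · exact Or.inr ⟨hP.1, hb⟩
      · exact Or.inl ⟨hP.1, hP.2, hb⟩
    have h3 := (Finset.card_le_card h2).trans (Finset.card_union_le _ _)
    have h4 : (((Om H I).filter (fun P => sx P ⊆ S T)).card : ℝ) ≤
        ((Om H I).filter (fun P => sx P ⊆ S T ∧ ¬ (B1 U P ∨ B2 V P))).card +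
          ((Om H I).filter (fun P => B1 U P ∨ B2 V P)).card := by exact_mod_cast h3
    have h5 : 0 < κ ^ 6 * J ^ 4 := by positivity
    nlinarith
  -- double counting
  obtain ⟨P, hPO, hPb, hPT⟩ : ∃ P ∈ Om H I, ¬ (B1 U P ∨ B2 V P) ∧
      κ ^ 6 / 2 ^ 9 * (TT.card : ℝ) ≤ ((TT.filter fun T => sx P ⊆ S T).card : ℝ) := by
    by_contra hcon
    push Not at hcon
    have hTTc : (1 : ℝ) ≤ TT.card := by
      have := Finset.card_pos.2 ⟨T0, hT0⟩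
      exact_mod_cast this
    have h1 : (TT.card : ℝ) * (κ ^ 6 * J ^ 4 / 16) ≤
        ∑ T ∈ TT, (((Om H I).filter fun P => sx P ⊆ S T ∧ ¬ (B1 U P ∨ B2 V P)).card : ℝ) := by
      rw [← nsmul_eq_mul, ← Finset.sum_const]
      exact Finset.sum_le_sum hgood
    have h2 : ∑ T ∈ TT,
        (((Om H I).filter fun P => sx P ⊆ S T ∧ ¬ (B1 U P ∨ B2 V P)).card : ℝ) ≤
        ∑ P ∈ Om H I, κ ^ 6 / 2 ^ 9 * (TT.card : ℝ) := by
      have h3 : ∀ T ∈ TT,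
          (((Om H I).filter fun P => sx P ⊆ S T ∧ ¬ (B1 U P ∨ B2 V P)).card : ℝ) =
          ∑ P ∈ Om H I, if sx P ⊆ S T ∧ ¬ (B1 U P ∨ B2 V P) then (1 : ℝ) else 0 := by
        intro T _
        rw [Finset.sum_boole]
      rw [Finset.sum_congr rfl h3, Finset.sum_comm]
      apply Finset.sum_le_sum
      intro P hP
      by_cases hb : B1 U P ∨ B2 V P
      · have h4 : ∑ T ∈ TT, (if sx P ⊆ S T ∧ ¬ (B1 U P ∨ B2 V P) then (1 : ℝ) else 0) = 0 := by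
          apply Finset.sum_eq_zero
          intro T _
          rw [if_neg fun h => h.2 hb]
        rw [h4]
        positivity
      · have h4 : ∑ T ∈ TT, (if sx P ⊆ S T ∧ ¬ (B1 U P ∨ B2 V P) then (1 : ℝ) else 0) =
            ((TT.filter fun T => sx P ⊆ S T).card : ℝ) := by
          rw [← Finset.sum_boole]
          apply Finset.sum_congr rfl
          intro T _
          by_cases h5 : sx P ⊆ S T
          · rw [if_pos ⟨h5, hb⟩, if_pos h5]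
          · rw [if_neg fun h => h5 h.1, if_neg h5]
        rw [h4]
        exact (hcon P hP (not_or.1 hb)).le
    rw [Finset.sum_const, nsmul_eq_mul] at h2
    have h3 : ((Om H I).card : ℝ) ≤ 24 * J ^ 4 := by
      unfold Om
      rw [card_prod4]
      have q1 : (I.card : ℝ) * I.card ≤ (2 * J) * (2 * J) :=
        mul_le_mul hIc hIc (Nat.cast_nonneg _) (by positivity)
      have q2 : (I.card : ℝ) * ((I.card : ℝ) * I.card) ≤ (2 * J) * ((2 * J) * (2 * J)) :=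
        mul_le_mul hIc q1 (by positivity) (by positivity)
      have q3 : (H.card : ℝ) * ((I.card : ℝ) * ((I.card : ℝ) * I.card)) ≤
          (3 * J) * ((2 * J) * ((2 * J) * (2 * J))) :=
        mul_le_mul hHc q2 (by positivity) (by positivity)
      refine q3.trans (le_of_eq ?_)
      ring
    have h4 : ((Om H I).card : ℝ) * (κ ^ 6 / 2 ^ 9 * (TT.card : ℝ)) ≤
        24 * J ^ 4 * (κ ^ 6 / 2 ^ 9 * (TT.card : ℝ)) :=
      mul_le_mul_of_nonneg_right h3 (by positivity)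
    have h5 : (TT.card : ℝ) * (κ ^ 6 * J ^ 4 / 16) ≤
        24 * J ^ 4 * (κ ^ 6 / 2 ^ 9 * (TT.card : ℝ)) := h1.trans (h2.trans h4)
    have h6 : 0 < (TT.card : ℝ) * (κ ^ 6 * J ^ 4) := by positivity
    nlinarith
  -- conclusion
  have hne : 0 < (TT.filter fun T => sx P ⊆ S T).card := by
    have h1 : (0 : ℝ) < ((TT.filter fun T => sx P ⊆ S T).card : ℝ) := by
      refine lt_of_lt_of_le ?_ hPT
      have := Finset.card_pos.2 ⟨T0, hT0⟩
      positivity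
    exact_mod_cast h1
  obtain ⟨T, hT⟩ := Finset.card_pos.1 hne
  rw [Finset.mem_filter] at hT
  have hPI : sx P ⊆ I := hT.2.trans (hS T hT.1).1
  have hPU : ∀ u ∈ sx P, u ∉ U := by
    intro u hu hU'
    apply hPb
    left
    unfold sx at hu
    simp only [Finset.mem_insert, Finset.mem_singleton] at hu
    unfold B1
    rcases hu with h | h | h | h | h | h <;> rw [h] at hU' <;> tauto
  refine ⟨P.2.1, P.1, P.2.2.1, P.2.2.2, ?_, ?_, hPT⟩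
  · intro u hu
    have hu' : u ∈ sx P := hu
    refine ⟨hPI hu', ?_⟩
    by_contra hlt
    exact hPU u hu' (Finset.mem_filter.2 ⟨hPI hu', not_le.1 hlt⟩)
  · intro v hv
    apply not_mem_Icc_floor
    intro hv'
    apply hPb
    right
    simp only [Finset.mem_insert, Finset.mem_singleton] at hv
    unfold B2
    have hv'' : v ∈ V := hv'
    rcases hv with h | h | h | h | h | h | h | h <;> rw [h] at hv'' <;> tauto

end Pool.Agent.H14.HDS
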